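import Pool.Agent.H7.Pick5

namespace Pool.Agent.Results.MP_e3a8c8_an.Certificate

open Pool.Agent.H7.Pick

universe u

/-- Every complete Pick pair whose second kernel does not vanish on the diagonal has a Shimorin
certificate. -/
theorem result {X : Type u} (k l : X → X → ℂ) (hk : IsKernel k) (hl : IsKernel l)
    (hl0 : ∀ x, l x x ≠ 0) (h : IsCPPair k l) : ∃ p : X → X → X → ℂ, IsCert k l p :=
  cert_of_CPpos hk hl hl0 (CPpos_of_CP hk hl h)

end Pool.Agent.Results.MP_e3a8c8_an.Certificate
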