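import Pool.Agent.H7.Pick5

namespace Pool.Agent.Results.MP_e3a8c8_an.Degenerate

open Pool.Agent.H7.Pick
open scoped ComplexOrder Matrix InnerProductSpace ComplexConjugate

/-- the first kernel -/
def kk : Fin 3 → Fin 3 → ℂ := ![![2, 1, 1], ![1, 2, 0], ![1, 0, 2]]

/-- the second kernel -/
def ll : Fin 3 → Fin 3 → ℂ := ![![2, 1, 0], ![1, 2, 0], ![0, 0, 0]]

lemma hk : IsKernel kk := by
  refine psd_congr (Matrix.posSemidef_conjTranspose_mul_self
    (!![1, 1, 0; 1, 0, 1; 0, 1, 0; 0, 0, 1] : Matrix (Fin 4) (Fin 3) ℂ)) fun i j => ?_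
  fin_cases i <;> fin_cases j <;> simp [kk, Matrix.mul_apply, Fin.sum_univ_four] <;> norm_num

lemma hl : IsKernel ll := by
  refine psd_congr (Matrix.posSemidef_conjTranspose_mul_self
    (!![1, 1, 0; 1, 0, 0; 0, 1, 0] : Matrix (Fin 3) (Fin 3) ℂ)) fun i j => ?_
  fin_cases i <;> fin_cases j <;> simp [ll, Matrix.mul_apply, Fin.sum_univ_three] <;> norm_num

lemma good (N : ℕ) (z : Fin 3) : Good (CN N) kk ll Set.univ z := by
  intro I _ x v y hx hp
  have hy : ∀ i, x i = 2 → y i = 0 := by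
    intro i hi
    have h1 := hp.diag_nonneg (i := i)
    simp only [pick, Matrix.of_apply, hi] at h1
    have h2 : (0 : ℂ) ≤ -(2 * ⟪y i, y i⟫_ℂ) := by simpa [kk, ll] using h1
    have h3 := mul_nonneg (show (0 : ℂ) ≤ 2 by norm_num) (inner_self_nn (y i))
    have h4 := le_antisymm (neg_nonneg.mp h2) h3
    simpa using h4
  have hd : ∀ t : Fin 3, (Matrix.of fun i j : I =>
      ⟪(if x i = t then (1 : ℂ) else 0), (if x j = t then (1 : ℂ) else 0)⟫_ℂ).PosSemidef :=
    fun t => gram_psd _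
  have h34 : (0 : ℂ) ≤ 3 / 4 := by
    have : (3 / 4 : ℂ) = ((3 / 4 : ℝ) : ℂ) := by push_cast; rfl
    rw [this]; exact Complex.zero_le_real.mpr (by norm_num)
  fin_cases z
  · refine psd_congr ((had (hd 1) hp).smul h34) fun i j => ?_
    have h1 := hy i
    have h2 := hy j
    simp only [pick, Matrix.of_apply, Matrix.smul_apply, Matrix.hadamard_apply, schur_eq]
    generalize x i = a at *
    generalize x j = b at *
    fin_cases a <;> fin_cases b <;> simp_all [kk, ll]
    ring
  · refine psd_congr ((had (hd 0) hp).smul h34) fun i j => ?_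
    have h1 := hy i
    have h2 := hy j
    simp only [pick, Matrix.of_apply, Matrix.smul_apply, Matrix.hadamard_apply, schur_eq]
    generalize x i = a at *
    generalize x j = b at *
    fin_cases a <;> fin_cases b <;> simp_all [kk, ll]
    ring
  · refine psd_congr (hp.add (par_psd hk 2 x y)) fun i j => ?_
    have : ll 2 2 = 0 := by simp [ll]
    simp only [pick, Matrix.of_apply, Matrix.add_apply, schur_eq, Fin.reduceFinMk, this]
    ring

/-- If the second kernel may vanish on the diagonal, a complete Pick pair need not have a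
Shimorin certificate. -/
theorem result : ∃ k l : Fin 3 → Fin 3 → ℂ, IsKernel k ∧ IsKernel l ∧ IsCPPair k l ∧
    ¬ ∃ p : Fin 3 → Fin 3 → Fin 3 → ℂ, IsCert k l p := by
  refine ⟨kk, ll, hk, hl, CP_of_CPpos (CPpos_of_good hk hl (fun x => ?_) good), ?_⟩
  · fin_cases x <;> simp [kk]
  rintro ⟨p, hp⟩
  obtain ⟨-, h1, h2⟩ := hp 0
  have h3 := h1.diag_nonneg (i := 1)
  have h4 := h2.diag_nonneg (i := 1)
  have e : schur ll 0 1 1 - p 0 1 1 * ll 1 1 = -(p 0 1 1 * kk 1 1 - schur kk 0 1 1) := by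
    simp [schur_eq, kk, ll]
  simp only [Matrix.of_apply] at h3 h4
  rw [e, neg_nonneg] at h3
  have h5 := row_zero h2 (i := 1) (le_antisymm h3 h4) 2
  simp [schur_eq, kk] at h5

end Pool.Agent.Results.MP_e3a8c8_an.Degenerate
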